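import Mathlib
import Pool.Agent.Lib.OmegaOne.Classify

/-!
Q1 of MP_b06970_an for the ordinal sum of the chain `ω` and the lattice of all closed subspaces of
a separable Hilbert space `K` (the chain below): this lattice is attained by an operator whose
distance from every translate of a compact operator is at least 1.
-/

namespace Pool.Agent.Results.MP_b06970_an.ChainBelow

open Pool.Agent.Lib.OmegaOne Filter Topology WithLp

section oper

variable (K : Type) [NormedAddCommGroup K] [InnerProductSpace ℂ K]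
  [TopologicalSpace.SeparableSpace K]

/-- the Hilbert space `ℓ² ⊕ K` -/
abbrev G := WithLp 2 (H × K)

/-- the inclusion of `ℓ²` -/
noncomputable def inH : H →L[ℂ] G K :=
  ((WithLp.prodContinuousLinearEquiv 2 ℂ H K).symm : (H × K) →L[ℂ] G K) ∘L
    (ContinuousLinearMap.inl ℂ H K)

/-- the inclusion of `K` -/
noncomputable def inK : K →L[ℂ] G K :=
  ((WithLp.prodContinuousLinearEquiv 2 ℂ H K).symm : (H × K) →L[ℂ] G K) ∘L
    (ContinuousLinearMap.inr ℂ H K)

/-- `T (h, k) = (B h + X k, 0)` -/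
noncomputable def T : G K →L[ℂ] G K :=
  inH K ∘L (B ∘L WithLp.fstL 2 ℂ H K + X K ∘L WithLp.sndL 2 ℂ H K)

variable {K}

@[simp] lemma inH_fst (h : H) : (inH K h).fst = h := rfl
@[simp] lemma inH_snd (h : H) : (inH K h).snd = 0 := rfl
@[simp] lemma inK_fst (k : K) : (inK K k).fst = 0 := rfl
@[simp] lemma inK_snd (k : K) : (inK K k).snd = k := rfl

lemma T_apply (v : G K) : T K v = inH K (B v.fst + X K v.snd) := rfl

lemma T_inH (h : H) : T K (inH K h) = inH K (B h) := by
  rw [T_apply]; simp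

lemma decomp (v : G K) : v = inH K v.fst + inK K v.snd := by
  apply WithLp.ofLp_injective
  apply Prod.ext
  · change v.fst = v.fst + 0
    rw [add_zero]
  · change v.snd = 0 + v.snd
    rw [zero_add]

lemma eq_inH {v : G K} (hv : v.snd = 0) : v = inH K v.fst := by
  have := decomp v
  rw [hv, map_zero, add_zero] at this
  exact this

variable (K) in
/-- the subspace `F r` of `ℓ²` -/
noncomputable def low (r : ℕ) : LatInv (T K) :=
  ⟨(F r).map (inH K : H →ₗ[ℂ] G K), by
    have : (((F r).map (inH K : H →ₗ[ℂ] G K) : Submodule ℂ (G K)) : Set (G K)) =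
        (fun v : G K => v.snd) ⁻¹' {0} ∩ (fun v : G K => v.fst) ⁻¹' (F r : Set H) := by
      ext v
      constructor
      · rintro ⟨h, hh, rfl⟩
        exact ⟨rfl, hh⟩
      · rintro ⟨h1, h2⟩
        exact ⟨v.fst, h2, (eq_inH h1).symm⟩
    rw [this]
    exact (isClosed_singleton.preimage (WithLp.sndL 2 ℂ H K).continuous).inter
      ((F_closed r).preimage (WithLp.fstL 2 ℂ H K).continuous), by
    rintro _ ⟨h, hh, rfl⟩
    exact ⟨B h, F_inv r h hh, (T_inH h).symm⟩⟩

lemma mem_low {r : ℕ} {v : G K} : v ∈ (low K r).1 ↔ v.snd = 0 ∧ v.fst ∈ F r := by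
  constructor
  · rintro ⟨h, hh, rfl⟩
    exact ⟨rfl, hh⟩
  · rintro ⟨h1, h2⟩
    exact ⟨v.fst, h2, (eq_inH h1).symm⟩

/-- the subspace `ℓ² ⊕ Z` -/
noncomputable def high (Z : ClosedSubmodule ℂ K) : LatInv (T K) :=
  ⟨Z.toSubmodule.comap (WithLp.sndL 2 ℂ H K : G K →ₗ[ℂ] K),
    Z.isClosed'.preimage (WithLp.sndL 2 ℂ H K).continuous, by
    intro v _
    change (T K v).snd ∈ Z.toSubmodule
    rw [T_apply, inH_snd]
    exact Z.toSubmodule.zero_mem⟩

lemma mem_high {Z : ClosedSubmodule ℂ K} {v : G K} : v ∈ (high Z).1 ↔ v.snd ∈ Z := Iff.rfl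

/-- the parametrisation of the lattice -/
noncomputable def par (a : ℕ ⊕ₗ ClosedSubmodule ℂ K) : LatInv (T K) :=
  match ofLex a with
  | Sum.inl r => low K r
  | Sum.inr Z => high Z

lemma par_inl (r : ℕ) : par (toLex (Sum.inl r) : ℕ ⊕ₗ ClosedSubmodule ℂ K) = low K r := rfl
lemma par_inr (Z : ClosedSubmodule ℂ K) :
    par (toLex (Sum.inr Z) : ℕ ⊕ₗ ClosedSubmodule ℂ K) = high Z := rfl

lemma par_le (a b : ℕ ⊕ₗ ClosedSubmodule ℂ K) : par a ≤ par b ↔ a ≤ b := by
  obtain ⟨a, rfl⟩ := toLex.surjective a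
  obtain ⟨b, rfl⟩ := toLex.surjective b
  rcases a with r | Z <;> rcases b with r' | Z'
  · rw [par_inl, par_inl, Sum.Lex.inl_le_inl_iff]
    constructor
    · intro h
      by_contra hlt
      have h1 : inH K (e r') ∈ (low K r).1 := mem_low.2 ⟨rfl, e_mem_F.2 (by omega)⟩
      have h2 := mem_low.1 (h h1)
      exact lt_irrefl _ (e_mem_F.1 h2.2)
    · intro h v hv
      have := mem_low.1 hv
      exact mem_low.2 ⟨this.1, fun k hk => this.2 k (h.trans hk)⟩
  · rw [par_inl, par_inr]
    refine iff_of_true ?_ (Sum.Lex.inl_le_inr _ _)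
    intro v hv
    rw [mem_high, (mem_low.1 hv).1]
    exact Z'.toSubmodule.zero_mem
  · rw [par_inr, par_inl]
    refine iff_of_false ?_ Sum.Lex.not_inr_le_inl
    intro h
    have h1 : inH K (e r') ∈ (high Z).1 := by
      rw [mem_high, inH_snd]; exact Z.toSubmodule.zero_mem
    have h2 := mem_low.1 (h h1)
    exact lt_irrefl _ (e_mem_F.1 h2.2)
  · rw [par_inr, par_inr, Sum.Lex.inr_le_inr_iff]
    constructor
    · intro h k hk
      have h1 : inK K k ∈ (high Z).1 := hk
      exact h h1
    · intro h v hv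
      exact h hv

lemma par_surj : Function.Surjective (par : ℕ ⊕ₗ ClosedSubmodule ℂ K → LatInv (T K)) := by
  rintro ⟨M, hMc, hMi⟩
  let N : Submodule ℂ H := M.comap (inH K : H →ₗ[ℂ] G K)
  have hNc : IsClosed (N : Set H) := hMc.preimage (inH K).continuous
  have hNi : ∀ x ∈ N, B x ∈ N := by
    intro x hx
    have hx' : inH K x ∈ M := hx
    have := hMi _ hx'
    rw [T_inH] at this
    exact this
  have key : N = ⊤ → ∃ a, par a = (⟨M, hMc, hMi⟩ : LatInv (T K)) := by
    intro hN
    have hin : ∀ h : H, inH K h ∈ M := fun h => by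
      have : h ∈ N := hN ▸ Submodule.mem_top
      exact this
    let Z : ClosedSubmodule ℂ K :=
      ⟨M.comap (inK K : K →ₗ[ℂ] G K), hMc.preimage (inK K).continuous⟩
    refine ⟨toLex (Sum.inr Z), ?_⟩
    rw [par_inr]
    apply Subtype.ext
    ext v
    rw [mem_high]
    change inK K v.snd ∈ M ↔ v ∈ M
    constructor
    · intro h
      rw [decomp v]
      exact M.add_mem (hin _) h
    · intro h
      have h1 : inK K v.snd = v - inH K v.fst := by
        rw [eq_sub_iff_add_eq, add_comm]
        exact (decomp v).symm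
      rw [h1]
      exact M.sub_mem h (hin _)
  by_cases hs : ∃ v ∈ M, v.snd ≠ 0
  · obtain ⟨v, hv, hv0⟩ := hs
    apply key
    have h1 := hMi v hv
    rw [T_apply] at h1
    exact top_of_inf hNc hNi (g := B v.fst + X K v.snd) h1 (inf_supp v.fst hv0)
  · push Not at hs
    rcases classify hNc hNi with h | ⟨r, hr⟩
    · exact key h
    · refine ⟨toLex (Sum.inl r), ?_⟩
      rw [par_inl]
      apply Subtype.ext
      ext v
      rw [mem_low, ← hr]
      constructor
      · rintro ⟨h1, h2⟩
        rw [eq_inH h1]; exact h2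
      · intro h
        refine ⟨hs v h, ?_⟩
        change inH K v.fst ∈ M
        rw [← eq_inH (hs v h)]; exact h

variable (K) in
/-- the order isomorphism -/
noncomputable def iso : LatInv (T K) ≃o (ℕ ⊕ₗ ClosedSubmodule ℂ K) :=
  (RelIso.ofSurjective (OrderEmbedding.ofMapLEIff par par_le) par_surj).symm

lemma norm_inH (h : H) : ‖inH K h‖ = ‖h‖ := WithLp.norm_toLp_fst 2 H K h

lemma sub_e_apply (a b k : ℕ) :
    (e a - e b : H) k = (if k = a then 1 else 0) - (if k = b then 1 else 0) := by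
  rw [sub_app, e_apply, e_apply]

lemma norm_sub_e {a b : ℕ} (hab : a ≠ b) : ‖e a - e b‖ ^ 2 = 2 := by
  rw [norm_sq, tsum_eq_sum (s := {a, b})]
  · rw [Finset.sum_pair hab, sub_e_apply, sub_e_apply]
    simp [hab, hab.symm]
    norm_num
  · intro k hk
    rw [sub_e_apply]
    simp only [Finset.mem_insert, Finset.mem_singleton, not_or] at hk
    simp [hk.1, hk.2]

lemma two_le {z : H} {a b : ℕ} (hab : a ≠ b) (ha : ‖z a‖ = 1) (hb : ‖z b‖ = 1) :
    2 ≤ ‖z‖ ^ 2 := by
  rw [norm_sq]
  have h := (summ z).sum_le_tsum {a, b} (fun _ _ => by positivity)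
  rw [Finset.sum_pair hab, ha, hb] at h
  linarith

lemma norm_e (a : ℕ) : ‖e a‖ = 1 := by
  unfold e
  rw [lp.norm_single (by norm_num)]
  simp

lemma B_e_odd (m : ℕ) : B (e (2 * m + 1)) = e (2 * m) := by
  rw [B_e_succ]
  have : w (2 * m) = 1 := by unfold w; simp
  rw [this]; simp

lemma dist_ge (C : G K →L[ℂ] G K) (c : ℂ) (hC : IsCompactOperator C) :
    1 ≤ ‖T K - (C + c • ContinuousLinearMap.id ℂ (G K))‖ := by
  by_contra hlt
  push Not at hlt
  set D := T K - (C + c • ContinuousLinearMap.id ℂ (G K)) with hD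
  obtain ⟨S, hS, hSC⟩ := IsCompactOperator.image_closedBall_subset_compact
    (f := (C : G K →ₗ[ℂ] G K)) hC 1
  have hx : ∀ m : ℕ, C (inH K (e (2 * m + 1))) ∈ S := fun m => hSC ⟨inH K (e (2 * m + 1)), by
    rw [Metric.mem_closedBall, dist_zero_right, norm_inH, norm_e], rfl⟩
  obtain ⟨a, -, φ, hφ, hlim⟩ := hS.tendsto_subseq hx
  have hcau := hlim.cauchySeq
  rw [Metric.cauchySeq_iff] at hcau
  have hs2 : 0 < Real.sqrt 2 := Real.sqrt_pos.2 (by norm_num)
  obtain ⟨n, hn⟩ := hcau ((1 - ‖D‖) * (Real.sqrt 2 / 2)) (by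
    apply mul_pos <;> linarith)
  have h1 := hn n le_rfl (n + 1) (Nat.le_succ n)
  simp only [Function.comp] at h1
  rw [dist_eq_norm] at h1
  set p := φ n
  set q := φ (n + 1)
  have hpq : p ≠ q := (hφ (Nat.lt_succ_self n)).ne
  set y : H := e (2 * p + 1) - e (2 * q + 1) with hy
  set z : H := (e (2 * p) - e (2 * q)) - c • y with hz
  have hCy : ‖C (inH K y)‖ < (1 - ‖D‖) * (Real.sqrt 2 / 2) := by
    rw [hy, map_sub, map_sub]; exact h1
  have hDy : D (inH K y) = inH K z - C (inH K y) := by
    rw [hD]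
    change T K (inH K y) - (C (inH K y) + c • inH K y) = _
    have hBy : B y = e (2 * p) - e (2 * q) := by
      rw [hy, map_sub, B_e_odd, B_e_odd]
    have hzz : inH K z = inH K (e (2 * p) - e (2 * q)) - c • inH K y := by
      rw [hz, map_sub, map_smul]
    rw [T_inH, hBy, hzz]
    abel
  have hny : ‖inH K y‖ = Real.sqrt 2 := by
    rw [norm_inH, ← norm_sub_e (a := 2 * p + 1) (b := 2 * q + 1) (by omega),
      Real.sqrt_sq (norm_nonneg _)]
  have hnz : Real.sqrt 2 ≤ ‖inH K z‖ := by
    rw [norm_inH]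
    apply Real.sqrt_le_iff.2 ⟨norm_nonneg _, ?_⟩
    apply two_le (a := 2 * p) (b := 2 * q) (by omega)
    · rw [hz, sub_app, smul_app, hy, sub_e_apply, sub_e_apply]
      have h1 : ¬ 2 * p = 2 * q := by omega
      have h2 : ¬ 2 * p = 2 * p + 1 := by omega
      have h3 : ¬ 2 * p = 2 * q + 1 := by omega
      rw [if_pos rfl, if_neg h1, if_neg h2, if_neg h3]
      simp
    · rw [hz, sub_app, smul_app, hy, sub_e_apply, sub_e_apply]
      have h1 : ¬ 2 * q = 2 * p := by omega
      have h2 : ¬ 2 * q = 2 * p + 1 := by omega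
      have h3 : ¬ 2 * q = 2 * q + 1 := by omega
      rw [if_neg h1, if_pos rfl, if_neg h2, if_neg h3]
      simp
  have h2 : ‖inH K z‖ ≤ ‖D (inH K y)‖ + ‖C (inH K y)‖ := by
    have : inH K z = D (inH K y) + C (inH K y) := by rw [hDy]; abel
    rw [this]; exact norm_add_le _ _
  have h3 : ‖D (inH K y)‖ ≤ ‖D‖ * Real.sqrt 2 := by
    rw [← hny]; exact D.le_opNorm _
  nlinarith

lemma sepH : TopologicalSpace.SeparableSpace H := by
  rw [← TopologicalSpace.isSeparable_univ_iff]
  have h : (Set.univ : Set H) = closure (Submodule.span ℂ (Set.range e) : Set H) := by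
    have h1 := top_of_all (N := (Submodule.span ℂ (Set.range e)).topologicalClosure)
      (Submodule.isClosed_topologicalClosure _)
      (fun j => Submodule.le_topologicalClosure _ (Submodule.subset_span ⟨j, rfl⟩))
    have h2 : ((Submodule.span ℂ (Set.range e)).topologicalClosure : Set H) = Set.univ := by
      rw [h1]; rfl
    rw [← h2, Submodule.topologicalClosure_coe]
  rw [h]
  exact ((Set.countable_range e).isSeparable.span (R := ℂ)).closure

lemma sepG : TopologicalSpace.SeparableSpace (G K) := by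
  have := sepH
  exact (WithLp.homeomorphProd 2 H K).symm.surjective.denseRange.separableSpace
    (WithLp.homeomorphProd 2 H K).symm.continuous

lemma infG : ¬ FiniteDimensional ℂ (G K) := by
  intro h
  have hp : ProperSpace (G K) := FiniteDimensional.proper ℂ (G K)
  have hc : IsCompactOperator (T K) := isCompactOperator_of_locallyCompactSpace_dom (T K)
  have h1 := dist_ge (T K) 0 hc
  have h0 : T K - (T K + (0 : ℂ) • ContinuousLinearMap.id ℂ (G K)) = 0 := by
    refine ContinuousLinearMap.ext fun x => ?_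
    change T K x - (T K x + (0 : ℂ) • x) = 0
    rw [zero_smul, add_zero, sub_self]
  rw [h0, norm_zero] at h1
  linarith

end oper

/-- For every separable Hilbert space `K`, the lattice `ℕ ⊕ₗ ClosedSubmodule ℂ K` (the chain `ω`
below the lattice of all closed subspaces of `K`) is the lattice of closed invariant subspaces of a
bounded operator on a separable infinite-dimensional Hilbert space whose distance from every
translate of a compact operator is at least 1. -/
theorem result (K : Type) [NormedAddCommGroup K] [InnerProductSpace ℂ K] [CompleteSpace K]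
    [TopologicalSpace.SeparableSpace K] :
    ∃ (G : Type) (_ : NormedAddCommGroup G) (_ : InnerProductSpace ℂ G) (_ : CompleteSpace G)
      (_ : TopologicalSpace.SeparableSpace G),
      ¬ FiniteDimensional ℂ G ∧
      ∃ T : G →L[ℂ] G,
        Nonempty ({M : Submodule ℂ G // IsClosed (M : Set G) ∧ ∀ x ∈ M, T x ∈ M} ≃o
          (ℕ ⊕ₗ ClosedSubmodule ℂ K)) ∧
        ∀ (C : G →L[ℂ] G) (c : ℂ), IsCompactOperator C →
          1 ≤ ‖T - (C + c • ContinuousLinearMap.id ℂ G)‖ :=
  ⟨G K, inferInstance, inferInstance, inferInstance, sepG, infG, T K, ⟨iso K⟩, dist_ge⟩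

end Pool.Agent.Results.MP_b06970_an.ChainBelow
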