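import Mathlib

/-!
Q1 of MP_b06970_an for the lattice `L` of ALL closed subspaces of a Hilbert space.

`L` is attained by the operator `0`.  Every operator `A` on a complex Hilbert space that attains
`L` is either a scalar operator, or all gaps of `Lat A` are infinite-dimensional and every nonzero
closed invariant subspace contains a closed invariant subspace on which `A` is transitive.
-/

namespace Pool.Agent.Results.MP_b06970_an.Dichotomy

open Submodule

/-- The lattice of closed invariant subspaces of `A`, ordered by inclusion. -/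
abbrev LatInv {H : Type*} [NormedAddCommGroup H] [InnerProductSpace ℂ H] (A : H →L[ℂ] H) :=
  {M : Submodule ℂ H // IsClosed (M : Set H) ∧ ∀ x ∈ M, A x ∈ M}

section alg
variable {H : Type*} [AddCommGroup H] [Module ℂ H]

lemma fd_of_le_sup {W V U : Submodule ℂ H} (h : W ≤ V ⊔ U) (hd : W ⊓ V = ⊥)
    [FiniteDimensional ℂ U] : FiniteDimensional ℂ W := by
  have hmap : ∀ w : W, V.mkQ w ∈ U.map V.mkQ := by
    intro w
    have := Submodule.mem_map_of_mem (f := V.mkQ) (h w.2)
    rw [Submodule.map_sup] at this
    have hV : V.map V.mkQ = ⊥ := Submodule.mkQ_map_self V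
    rw [hV, bot_sup_eq] at this
    exact this
  let φ : W →ₗ[ℂ] (U.map V.mkQ) :=
    LinearMap.codRestrict (U.map V.mkQ) (V.mkQ.comp W.subtype) hmap
  have hinj : Function.Injective φ := by
    rw [← LinearMap.ker_eq_bot, LinearMap.ker_eq_bot']
    intro w hw
    have h1 : V.mkQ (w : H) = 0 := by
      have := congrArg Subtype.val hw
      simpa [φ] using this
    have h2 : (w : H) ∈ V := by
      rwa [Submodule.mkQ_apply, Submodule.Quotient.mk_eq_zero] at h1
    have h3 : (w : H) ∈ W ⊓ V := ⟨w.2, h2⟩
    rw [hd, Submodule.mem_bot] at h3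
    exact Subtype.ext h3
  exact Module.Finite.of_injective φ hinj

end alg

section main
variable {E : Type*} [NormedAddCommGroup E] [InnerProductSpace ℂ E]
variable {H : Type*} [NormedAddCommGroup H] [InnerProductSpace ℂ H] {A : H →L[ℂ] H}

/-- the line through `u` -/
noncomputable def ln (u : E) : ClosedSubmodule ℂ E :=
  ⟨ℂ ∙ u, Submodule.closed_of_finiteDimensional _⟩

lemma mem_ln {u v : E} : v ∈ ln u ↔ v ∈ (ℂ ∙ u) := Iff.rfl

lemma ln_le {u : E} {Q : ClosedSubmodule ℂ E} : ln u ≤ Q ↔ u ∈ Q := by
  constructor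
  · intro h
    exact h (Submodule.mem_span_singleton_self u)
  · intro h x hx
    have hx' : x ∈ (ℂ ∙ u) := hx
    obtain ⟨c, rfl⟩ := Submodule.mem_span_singleton.mp hx'
    exact Q.toSubmodule.smul_mem c h

variable (e : LatInv A ≃o ClosedSubmodule ℂ E)

/-- the element of `Lat A` corresponding to the line through `u` -/
noncomputable def N (u : E) : Submodule ℂ H := (e.symm (ln u)).1

lemma N_closed (u : E) : IsClosed (N e u : Set H) := (e.symm (ln u)).2.1
lemma N_inv (u : E) : ∀ x ∈ N e u, A x ∈ N e u := (e.symm (ln u)).2.2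

lemma N_le {u : E} {Q : Submodule ℂ H} (hc : IsClosed (Q : Set H)) (hi : ∀ x ∈ Q, A x ∈ Q) :
    N e u ≤ Q ↔ u ∈ e ⟨Q, hc, hi⟩ := by
  rw [← ln_le, ← OrderIso.symm_apply_le]
  rfl

lemma N_span {u v w : E} (hw : w ∈ (ℂ ∙ u) ⊔ (ℂ ∙ v)) {Q : Submodule ℂ H}
    (hc : IsClosed (Q : Set H)) (hi : ∀ x ∈ Q, A x ∈ Q) (hu : N e u ≤ Q) (hv : N e v ≤ Q) :
    N e w ≤ Q := by
  rw [N_le e hc hi] at *
  have h : (ℂ ∙ u) ⊔ (ℂ ∙ v) ≤ (e ⟨Q, hc, hi⟩).toSubmodule := by
    rw [sup_le_iff]
    constructor
    · rw [Submodule.span_singleton_le_iff_mem]; exact hu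
    · rw [Submodule.span_singleton_le_iff_mem]; exact hv
  exact h hw

lemma le_iff {P Q : Submodule ℂ H} (hc : IsClosed (P : Set H)) (hi : ∀ x ∈ P, A x ∈ P)
    (hc' : IsClosed (Q : Set H)) (hi' : ∀ x ∈ Q, A x ∈ Q) :
    P ≤ Q ↔ ∀ u ∈ e ⟨P, hc, hi⟩, u ∈ e ⟨Q, hc', hi'⟩ := by
  have h : (⟨P, hc, hi⟩ : LatInv A) ≤ ⟨Q, hc', hi'⟩ ↔ P ≤ Q := Iff.rfl
  rw [← h, ← e.le_iff_le]
  rfl

lemma N_eq_bot {u : E} (h : N e u = ⊥) : u = 0 := by
  have h0 : ∀ x ∈ (N e u), A x ∈ N e u := N_inv e u
  have h1 : N e u ≤ N e (0 : E) := by rw [h]; exact bot_le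
  rw [N_le e (N_closed e 0) (N_inv e 0)] at h1
  have h2 : e ⟨N e (0 : E), N_closed e 0, N_inv e 0⟩ = ln (0 : E) := by
    have : (⟨N e (0 : E), N_closed e 0, N_inv e 0⟩ : LatInv A) = e.symm (ln (0 : E)) := rfl
    rw [this, OrderIso.apply_symm_apply]
  rw [h2, mem_ln, Submodule.span_zero_singleton, Submodule.mem_bot] at h1
  exact h1

lemma e_N (u : E) : e ⟨N e u, N_closed e u, N_inv e u⟩ = ln u := by
  have : (⟨N e u, N_closed e u, N_inv e u⟩ : LatInv A) = e.symm (ln u) := rfl
  rw [this, OrderIso.apply_symm_apply]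

lemma N_zero : N e (0 : E) = ⊥ := by
  rw [eq_bot_iff]
  have hc : IsClosed ((⊥ : Submodule ℂ H) : Set H) := Submodule.closed_of_finiteDimensional _
  have hi : ∀ x ∈ (⊥ : Submodule ℂ H), A x ∈ (⊥ : Submodule ℂ H) := by
    intro x hx
    rw [Submodule.mem_bot] at *
    rw [hx, map_zero]
  rw [N_le e hc hi]
  exact Submodule.zero_mem _

lemma atom {u : E} {P : Submodule ℂ H} (hc : IsClosed (P : Set H)) (hi : ∀ x ∈ P, A x ∈ P)
    (h : P ≤ N e u) : P = ⊥ ∨ P = N e u := by
  by_cases h0 : ∃ v ∈ e ⟨P, hc, hi⟩, v ≠ 0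
  · right
    obtain ⟨v, hv, hv0⟩ := h0
    refine le_antisymm h ?_
    rw [N_le e hc hi]
    have h1 := (le_iff e hc hi (N_closed e u) (N_inv e u)).mp h v hv
    rw [e_N, mem_ln] at h1
    obtain ⟨c, rfl⟩ := Submodule.mem_span_singleton.mp h1
    have hc0 : c ≠ 0 := by
      rintro rfl
      exact hv0 (zero_smul _ _)
    have : u = c⁻¹ • (c • u) := by rw [smul_smul, inv_mul_cancel₀ hc0, one_smul]
    rw [this]
    exact Submodule.smul_mem (e ⟨P, hc, hi⟩).toSubmodule _ hv
  · left
    push Not at h0
    have h1 : P ≤ N e (0 : E) := by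
      rw [le_iff e hc hi (N_closed e 0) (N_inv e 0)]
      intro v hv
      rw [h0 v hv]
      exact Submodule.zero_mem _
    rw [N_zero] at h1
    exact eq_bot_iff.mpr h1

lemma disj {u v : E} (h : u ∉ (ℂ ∙ v)) : N e u ⊓ N e v = ⊥ := by
  have hc : IsClosed ((N e u ⊓ N e v : Submodule ℂ H) : Set H) :=
    (N_closed e u).inter (N_closed e v)
  have hi : ∀ x ∈ N e u ⊓ N e v, A x ∈ N e u ⊓ N e v := fun x hx =>
    ⟨N_inv e u x hx.1, N_inv e v x hx.2⟩
  rcases atom e hc hi inf_le_left with h1 | h1
  · exact h1
  · exfalso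
    apply h
    have h2 : N e u ≤ N e v := by
      rw [← h1]; exact inf_le_right
    rw [N_le e (N_closed e v) (N_inv e v), e_N] at h2
    exact h2

lemma inv_sup {P Q : Submodule ℂ H} (hP : ∀ x ∈ P, A x ∈ P) (hQ : ∀ x ∈ Q, A x ∈ Q) :
    ∀ x ∈ P ⊔ Q, A x ∈ P ⊔ Q := by
  intro x hx
  obtain ⟨y, hy, z, hz, rfl⟩ := Submodule.mem_sup.mp hx
  rw [map_add]
  exact Submodule.add_mem_sup (hP y hy) (hQ z hz)

lemma fd_all {u : E} (hu : u ≠ 0) [hfd : FiniteDimensional ℂ (N e u)] (v : E) :
    FiniteDimensional ℂ (N e v) := by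
  by_cases hv : v ∈ (ℂ ∙ u)
  · have : N e v ≤ N e u := by
      rw [N_le e (N_closed e u) (N_inv e u), e_N]; exact hv
    exact Submodule.finiteDimensional_of_le this
  · by_cases hv0 : v = 0
    · subst hv0
      rw [N_zero]
      infer_instance
    · have hcl : IsClosed ((N e v ⊔ N e u : Submodule ℂ H) : Set H) :=
        Submodule.isClosed_sup_finiteDimensional _ _ (N_closed e v)
      have hi := inv_sup (A := A) (N_inv e v) (N_inv e u)
      have hw : N e (u + v) ≤ N e v ⊔ N e u := by
        refine N_span e (u := u) (v := v) ?_ hcl hi le_sup_right le_sup_left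
        exact Submodule.add_mem_sup (Submodule.mem_span_singleton_self u)
          (Submodule.mem_span_singleton_self v)
      have hd : N e (u + v) ⊓ N e v = ⊥ := by
        apply disj
        intro h
        apply hv
        have h1 : u ∈ (ℂ ∙ v) := by
          have := Submodule.sub_mem _ h (Submodule.mem_span_singleton_self v)
          simpa using this
        obtain ⟨c, hc⟩ := Submodule.mem_span_singleton.mp h1
        have hc0 : c ≠ 0 := by
          rintro rfl
          apply hu; rw [← hc, zero_smul]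
        rw [Submodule.mem_span_singleton]
        exact ⟨c⁻¹, by rw [← hc, smul_smul, inv_mul_cancel₀ hc0, one_smul]⟩
      have hfw : FiniteDimensional ℂ (N e (u + v)) := fd_of_le_sup hw hd
      have hcl2 : IsClosed ((N e u ⊔ N e (u + v) : Submodule ℂ H) : Set H) :=
        Submodule.closed_of_finiteDimensional _
      have h3 : N e v ≤ N e u ⊔ N e (u + v) := by
        refine N_span e (u := u) (v := u + v) ?_ hcl2
          (inv_sup (A := A) (N_inv e u) (N_inv e (u + v))) le_sup_left le_sup_right
        have m1 : -u ∈ (ℂ ∙ u) := (ℂ ∙ u).neg_mem (Submodule.mem_span_singleton_self u)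
        have m2 : u + v ∈ (ℂ ∙ (u + v)) := Submodule.mem_span_singleton_self (u + v)
        have m3 := Submodule.add_mem_sup m1 m2
        rwa [neg_add_cancel_left] at m3
      exact Submodule.finiteDimensional_of_le h3

lemma eigenline {v : E} (hv : v ≠ 0) [FiniteDimensional ℂ (N e v)] :
    ∃ (x : H) (μ : ℂ), x ≠ 0 ∧ N e v = (ℂ ∙ x) ∧ A x = μ • x := by
  have hne : N e v ≠ ⊥ := fun h => hv (N_eq_bot e h)
  have : Nontrivial (N e v) := (Submodule.nontrivial_iff_ne_bot).mpr hne
  let T : Module.End ℂ (N e v) :=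
    (A : H →ₗ[ℂ] H).restrict (p := N e v) (q := N e v) (fun x hx => N_inv e v x hx)
  obtain ⟨μ, hμ⟩ := Module.End.exists_eigenvalue T
  obtain ⟨y, hy⟩ := hμ.exists_hasEigenvector
  have hy0 : (y : H) ≠ 0 := by
    intro h
    exact hy.2 (Subtype.ext h)
  have hy1 : A (y : H) = μ • (y : H) := by
    have := hy.apply_eq_smul
    have := congrArg Subtype.val this
    simpa [T] using this
  have hi : ∀ z ∈ (ℂ ∙ (y : H)), A z ∈ (ℂ ∙ (y : H)) := by
    intro z hz
    obtain ⟨c, rfl⟩ := Submodule.mem_span_singleton.mp hz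
    rw [map_smul, hy1]
    exact Submodule.smul_mem _ _ (Submodule.smul_mem _ _ (Submodule.mem_span_singleton_self _))
  have hle : (ℂ ∙ (y : H)) ≤ N e v := by
    rw [Submodule.span_singleton_le_iff_mem]; exact y.2
  rcases atom e (Submodule.closed_of_finiteDimensional _) hi hle with h1 | h1
  · exact absurd (Submodule.span_singleton_eq_bot.mp h1) hy0
  · exact ⟨y, μ, hy0, h1.symm, hy1⟩

lemma scalar {u : E} (hu : u ≠ 0) [hfd : FiniteDimensional ℂ (N e u)] :
    ∃ c : ℂ, A = c • ContinuousLinearMap.id ℂ H := by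
  have hall : ∀ v : E, FiniteDimensional ℂ (N e v) := fd_all e hu
  obtain ⟨x, μ, hx0, hNx, hAx⟩ := eigenline e hu
  refine ⟨μ, ?_⟩
  let K : Submodule ℂ H := LinearMap.ker ((A - μ • ContinuousLinearMap.id ℂ H : H →L[ℂ] H) : H →ₗ[ℂ] H)
  have memK : ∀ y, y ∈ K ↔ A y = μ • y := by
    intro y
    simp [K, sub_eq_zero]
  have hKc : IsClosed (K : Set H) :=
    ContinuousLinearMap.isClosed_ker (A - μ • ContinuousLinearMap.id ℂ H)
  have hKi : ∀ y ∈ K, A y ∈ K := by
    intro y hy
    rw [memK] at hy ⊢
    rw [hy, map_smul, hy]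
  have hN : ∀ v : E, N e v ≤ K := by
    intro v
    by_cases hv : v ∈ (ℂ ∙ u)
    · have h1 : N e v ≤ N e u := by
        rw [N_le e (N_closed e u) (N_inv e u), e_N]; exact hv
      refine h1.trans ?_
      rw [hNx, Submodule.span_singleton_le_iff_mem, memK]
      exact hAx
    · have hv0 : v ≠ 0 := by
        rintro rfl
        exact hv (Submodule.zero_mem _)
      have huv : u ∉ (ℂ ∙ v) := by
        intro h1
        apply hv
        obtain ⟨c, hc⟩ := Submodule.mem_span_singleton.mp h1
        have hc0 : c ≠ 0 := by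
          rintro rfl
          apply hu; rw [← hc, zero_smul]
        rw [Submodule.mem_span_singleton]
        exact ⟨c⁻¹, by rw [← hc, smul_smul, inv_mul_cancel₀ hc0, one_smul]⟩
      have hw0 : u + v ≠ 0 := by
        intro h
        apply hv
        have : v = (-1 : ℂ) • u := by
          rw [neg_one_smul]; exact (neg_eq_of_add_eq_zero_right h).symm
        rw [this]
        exact Submodule.smul_mem _ _ (Submodule.mem_span_singleton_self u)
      have := hall v
      have := hall (u + v)
      obtain ⟨y, ν, hy0, hNy, hAy⟩ := eigenline e hv0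
      obtain ⟨z, κ, hz0, hNz, hAz⟩ := eigenline e hw0
      have hdwv : N e (u + v) ⊓ N e v = ⊥ := by
        apply disj
        intro h
        apply huv
        have := Submodule.sub_mem _ h (Submodule.mem_span_singleton_self v)
        simpa using this
      have hdwu : N e (u + v) ⊓ N e u = ⊥ := by
        apply disj
        intro h
        apply hv
        have := Submodule.sub_mem _ h (Submodule.mem_span_singleton_self u)
        simpa using this
      have hzs : z ∈ N e u ⊔ N e v := by
        have hcl : IsClosed ((N e u ⊔ N e v : Submodule ℂ H) : Set H) :=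
          Submodule.closed_of_finiteDimensional _
        have hle : N e (u + v) ≤ N e u ⊔ N e v := by
          refine N_span e (u := u) (v := v) ?_ hcl (inv_sup (A := A) (N_inv e u) (N_inv e v))
            le_sup_left le_sup_right
          exact Submodule.add_mem_sup (Submodule.mem_span_singleton_self u)
            (Submodule.mem_span_singleton_self v)
        apply hle
        rw [hNz]
        exact Submodule.mem_span_singleton_self z
      rw [hNx, hNy] at hzs
      obtain ⟨p, hp, q, hq, hpq⟩ := Submodule.mem_sup.mp hzs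
      obtain ⟨a, rfl⟩ := Submodule.mem_span_singleton.mp hp
      obtain ⟨b, rfl⟩ := Submodule.mem_span_singleton.mp hq
      have hzN : z ∈ N e (u + v) := by rw [hNz]; exact Submodule.mem_span_singleton_self z
      have key : (κ - μ) • z = (b * (ν - μ)) • y := by
        have h1 : A z = a • μ • x + b • ν • y := by
          rw [← hpq, map_add, map_smul, map_smul, hAx, hAy]
        rw [sub_smul, ← hAz, h1, ← hpq]
        simp only [smul_add, smul_smul, mul_sub, sub_smul]
        have e1 : a * μ = μ * a := mul_comm _ _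
        have e2 : b * μ = μ * b := mul_comm _ _
        rw [e1, e2]
        abel
      have hy_in : (κ - μ) • z ∈ N e (u + v) ⊓ N e v := by
        refine ⟨Submodule.smul_mem _ _ hzN, ?_⟩
        rw [key, hNy]
        exact Submodule.smul_mem _ _ (Submodule.mem_span_singleton_self y)
      rw [hdwv, Submodule.mem_bot] at hy_in
      rw [hy_in] at key
      have hb : b * (ν - μ) = 0 := by
        rcases smul_eq_zero.mp key.symm with h | h
        · exact h
        · exact absurd h hy0
      have hνμ : ν = μ := by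
        rcases mul_eq_zero.mp hb with h | h
        · exfalso
          rw [h, zero_smul, add_zero] at hpq
          have h2 : z ∈ N e (u + v) ⊓ N e u := by
            refine ⟨hzN, ?_⟩
            rw [← hpq, hNx]
            exact Submodule.smul_mem _ _ (Submodule.mem_span_singleton_self x)
          rw [hdwu, Submodule.mem_bot] at h2
          exact hz0 h2
        · exact sub_eq_zero.mp h
      rw [hNy, Submodule.span_singleton_le_iff_mem, memK, ← hνμ]
      exact hAy
  have hTop : (⊤ : Submodule ℂ H) ≤ K := by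
    have hc : IsClosed ((⊤ : Submodule ℂ H) : Set H) := by
      rw [Submodule.top_coe]; exact isClosed_univ
    have hi : ∀ x ∈ (⊤ : Submodule ℂ H), A x ∈ (⊤ : Submodule ℂ H) := fun _ _ => Submodule.mem_top
    rw [le_iff e hc hi hKc hKi]
    intro v _
    exact (N_le e hKc hKi).mp (hN v)
  ext y
  have := (memK y).mp (hTop Submodule.mem_top)
  simpa using this

end main

/-- `A` attains the lattice of all closed subspaces of the space `E`. -/
def AttainsAll (E : Type) [NormedAddCommGroup E] [InnerProductSpace ℂ E]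
    {H : Type} [NormedAddCommGroup H] [InnerProductSpace ℂ H] (A : H →L[ℂ] H) : Prop :=
  Nonempty (LatInv A ≃o ClosedSubmodule ℂ E)

/-- `Lat A` has no finite-dimensional gap: closed invariant subspaces `M ≤ N` with `N` contained
in `M` plus a finite-dimensional space are equal. -/
def NoFiniteGap {H : Type} [NormedAddCommGroup H] [InnerProductSpace ℂ H] (A : H →L[ℂ] H) :
    Prop :=
  ∀ M N : LatInv A, M ≤ N →
    (∃ F : Submodule ℂ H, FiniteDimensional ℂ F ∧ N.1 ≤ M.1 ⊔ F) → M = N

/-- Every nonzero closed invariant subspace of `A` contains a nonzero closed invariant subspace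
`M` whose only closed invariant subspaces are `0` and `M`. -/
def TransitiveParts {H : Type} [NormedAddCommGroup H] [InnerProductSpace ℂ H] (A : H →L[ℂ] H) :
    Prop :=
  ∀ N : LatInv A, N.1 ≠ ⊥ →
    ∃ M : LatInv A, M ≤ N ∧ M.1 ≠ ⊥ ∧ ∀ P : LatInv A, P ≤ M → P.1 = ⊥ ∨ P = M

/-- **Result.** Let `E` be an infinite-dimensional complex Hilbert space and `L` the complete
lattice of all closed subspaces of `E`.
It is not the two-element lattice and is attained by the (compact) operator `0` on `E`.
If a bounded operator `A` on a complex Hilbert space attains `L`, then either `A` is a scalar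
multiple of the identity, or `Lat A` has no finite-dimensional gap and every nonzero closed
invariant subspace contains one on which `A` is transitive. -/
theorem result (E : Type) [NormedAddCommGroup E] [InnerProductSpace ℂ E] [CompleteSpace E]
    (hE : ¬ FiniteDimensional ℂ E) :
    ¬ Nonempty (ClosedSubmodule ℂ E ≃o Bool) ∧
    AttainsAll E (0 : E →L[ℂ] E) ∧
    ∀ (H : Type) [NormedAddCommGroup H] [InnerProductSpace ℂ H] [CompleteSpace H]
      (A : H →L[ℂ] H), AttainsAll E A →
      (∃ c : ℂ, A = c • ContinuousLinearMap.id ℂ H) ∨ (NoFiniteGap A ∧ TransitiveParts A) := by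
  refine ⟨?_, ?_, ?_⟩
  · rintro ⟨e⟩
    obtain ⟨u, hu, v, hv⟩ : ∃ u : E, u ≠ 0 ∧ ∃ v : E, v ∉ (ℂ ∙ u) := by
      by_contra hcon
      push Not at hcon
      apply hE
      by_cases h0 : ∃ u : E, u ≠ 0
      · obtain ⟨u, hu⟩ := h0
        have htop : (ℂ ∙ u) = ⊤ := by
          rw [eq_top_iff]
          intro v _
          exact hcon u hu v
        have : FiniteDimensional ℂ (⊤ : Submodule ℂ E) := by
          rw [← htop]
          infer_instance
        exact Module.Finite.equiv (Submodule.topEquiv (R := ℂ) (M := E))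
      · push Not at h0
        have : Subsingleton E := ⟨fun a b => by rw [h0 a, h0 b]⟩
        infer_instance
    have h1 : ln (0 : E) < ln u := by
      rw [lt_iff_le_not_ge]
      constructor
      · rw [ln_le]; exact Submodule.zero_mem _
      · rw [ln_le]
        intro h
        rw [mem_ln, Submodule.span_zero_singleton, Submodule.mem_bot] at h
        exact hu h
    have h2 : ln u < ⊤ := by
      rw [lt_top_iff_ne_top]
      intro h
      apply hv
      have : v ∈ (⊤ : ClosedSubmodule ℂ E) := Submodule.mem_top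
      rw [← h] at this
      exact this
    have h3 := e.strictMono h1
    have h4 := e.strictMono h2
    revert h3 h4
    generalize e (ln (0 : E)) = a
    generalize e (ln u) = b
    generalize e ⊤ = c
    revert a b c
    decide
  · refine ⟨{ toFun := fun M => ⟨M.1, M.2.1⟩
              invFun := fun M => ⟨M.toSubmodule, M.isClosed, ?_⟩
              left_inv := fun M => rfl
              right_inv := fun M => rfl
              map_rel_iff' := Iff.rfl }⟩
    intro x _
    simp
  · intro H _ _ _ A ⟨e⟩
    by_cases h : ∃ u : E, u ≠ 0 ∧ FiniteDimensional ℂ (N e u)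
    · left
      obtain ⟨u, hu, hfd⟩ := h
      exact scalar e hu
    · right
      push Not at h
      constructor
      · rintro ⟨M, hMc, hMi⟩ ⟨Q, hQc, hQi⟩ hMQ ⟨F, hF, hQF⟩
        by_contra hne
        have hnle : ¬ Q ≤ M := by
          intro hle
          exact hne (Subtype.ext (le_antisymm hMQ hle))
        rw [le_iff e hQc hQi hMc hMi] at hnle
        push Not at hnle
        obtain ⟨u, huQ, huM⟩ := hnle
        have hu0 : u ≠ 0 := by
          rintro rfl
          exact huM (Submodule.zero_mem _)
        have h1 : N e u ≤ Q := (N_le e hQc hQi).mpr huQ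
        have h2 : N e u ⊓ M = ⊥ := by
          rcases atom e (P := N e u ⊓ M) ((N_closed e u).inter hMc)
            (fun x hx => ⟨N_inv e u x hx.1, hMi x hx.2⟩) inf_le_left with h3 | h3
          · exact h3
          · exfalso
            apply huM
            rw [← N_le e hMc hMi, ← h3]
            exact inf_le_right
        exact h u hu0 (fd_of_le_sup (h1.trans hQF) h2)
      · rintro ⟨Q, hQc, hQi⟩ hQ
        have hex : ∃ u ∈ e ⟨Q, hQc, hQi⟩, u ≠ 0 := by
          by_contra hcon
          push Not at hcon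
          apply hQ
          have h1 : Q ≤ N e (0 : E) := by
            rw [le_iff e hQc hQi (N_closed e 0) (N_inv e 0)]
            intro v hv
            rw [hcon v hv]
            exact Submodule.zero_mem _
          rw [N_zero] at h1
          exact eq_bot_iff.mpr h1
        obtain ⟨u, hu, hu0⟩ := hex
        refine ⟨⟨N e u, N_closed e u, N_inv e u⟩, (N_le e hQc hQi).mpr hu,
          fun h0 => hu0 (N_eq_bot e h0), ?_⟩
        rintro ⟨P, hPc, hPi⟩ hP
        rcases atom e hPc hPi hP with h1 | h1
        · exact Or.inl h1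
        · exact Or.inr (Subtype.ext h1)

end Pool.Agent.Results.MP_b06970_an.Dichotomy
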