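import Pool.Agent.Lib.B06970.Fin
import Pool.Agent.Lib.B06970.Angle

/-!
# A non scalar operator attaining the lattice of all closed subspaces is strongly irreducible

Let `E` be a complex Hilbert space, and let `A` be a bounded operator on a complex Hilbert space
`H` whose lattice of closed invariant subspaces is order isomorphic to the lattice of all closed
subspaces of `E`. If `A` is not a scalar multiple of the identity and `M`, `N` are closed invariant
subspaces at a positive angle (`M ∩ N = 0`, `M + N` closed), `M ≠ 0`, then `N` contains no infinite
strictly increasing sequence of closed invariant subspaces.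

Hence, if `E` is infinite-dimensional, no bounded idempotent except `0` and the identity commutes
with `A` (`Pool.Agent.Lib.B06970.strongly_irreducible`).

The definitions `LatInv` and `AttainsAll` are those of `MP_b06970_an.Dichotomy`.
-/

set_option autoImplicit false

namespace Pool.Agent.Results.MP_b06970_an.StronglyIrreducible

open Pool.Agent.Results.MP_b06970_an.Dichotomy

/-- **Result.** Let the bounded operator `A` on the complex Hilbert space `H` attain the lattice
of all closed subspaces of the complex Hilbert space `E`, and suppose that `A` is not a scalar
multiple of the identity. If `M`, `N` are closed invariant subspaces of `A`, `M ≠ 0`, `M ∩ N = 0`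
and `M + N` is closed, then `N` contains no infinite strictly increasing sequence of closed
invariant subspaces. -/
theorem result (E : Type) [NormedAddCommGroup E] [InnerProductSpace ℂ E] [CompleteSpace E]
    (H : Type) [NormedAddCommGroup H] [InnerProductSpace ℂ H] [CompleteSpace H]
    (A : H →L[ℂ] H) (hA : AttainsAll E A)
    (hns : ¬ ∃ c : ℂ, A = c • ContinuousLinearMap.id ℂ H)
    (M N : LatInv A) (hM : M.1 ≠ ⊥) (hMN : M.1 ⊓ N.1 = ⊥)
    (hcl : IsClosed ((M.1 ⊔ N.1 : Submodule ℂ H) : Set H)) :
    ¬ ∃ c : ℕ → LatInv A, StrictMono c ∧ ∀ n, c n ≤ N := by
  obtain ⟨e⟩ := hA
  exact Pool.Agent.Lib.B06970.angle e hns hM hMN hcl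

end Pool.Agent.Results.MP_b06970_an.StronglyIrreducible
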